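import Pool.Agent.H89.LV.Dbl

/-!
# Bohr sets in `A + A` and `2A - 2A`: growth and energy

For sets `X, Y, S ⊆ ℤ/N` with `|X + Y| ≤ e^p |Y|`, `|X + Y| ≤ e^q |X|`, `|X + S| ≤ e^q |X|` and `s = log (N/|S|)` there
is a Bohr set `B` of dimension at most `C (s + (1 + p) (1 + p + q) (log (2 + p))³ log (2 + p + q + s))` and radius at least
`c / (1 + p + q + s)` such that `B ⊆ X + Y - X - Y` and `X + Y` contains almost all of a translate of `B`.

If `B ⊆ A` and `|B|³ ≤ K E(B)`, where `E(B)` is the additive energy, then there is such a Bohr set for `2A - 2A` and `A + A`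
of dimension at most `C (log (N/|B|) + (log K)² (log (2 + log K))⁴)` and radius at least `c / log (N/|B|)`. The bound
in the library has `(log K)⁴`, which goes back to Sanders.

Consequently the conclusion of Q1 holds for all sets `A` of density `α` containing a set `B` with `|B| ≥ α^M N` and
`|B + B| ≤ exp ((M ℓ)^(1/2) / (log (2 + ℓ))²) |B|`, `ℓ = log (1/α)`, or with the corresponding energy (the library has
`(M ℓ)^(1/4)`), and for all sets `A` which contain sets `X`, `Y` such that, for a set `S` with `|S| ≥ α^M N`,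
`|X + Y| ≤ e^p |Y|`, `|X + Y| ≤ e^q |X|`, `|X + S| ≤ e^q |X|` and `(1 + p) (1 + p + q) (log (2 + ℓ))⁴ ≤ M ℓ`.

Proof. The sampling argument of Croot and Sisask is run for the uniform measure of a set `P` and a set `T` of
translations, with the growth `H` of the Shannon entropy under `T` in place of the growth of sets: by Gibbs' inequality
and Jensen's inequality there is a sample of `n` points of `P` which is good for `exp (-2 n H) / 4` of the elements of `T`.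
The sample controls a level set `P' = {z : P_(y ∈ P) (y + z ∈ W) ≥ θ}`, `W = X + Y`: the level `θ` is chosen such that the
level sets grow by a factor `e^(O(b/K))` only in an interval of length `1/K` around `θ`; then for `n ≥ C K² (b/K + log b)` a
set `T' ⊆ T` of density `exp (-2 n H) / 4` moves all but a small proportion of `P'` into a set of size `e^(O(b/K)) |P'|`.
The points of `P'` have the property of the next step, with the roles of `X` and `Y` interchanged. In the `j`-th double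
step `K = 2^j`, and `n H` is at most `C p q (log p)^O(1)` in all steps: the entropies decrease as the numbers of the
samples increase. At the end a set `T` of density `exp (- s - C p q (log p)^O(1))` moves at most the proportion `η` of a
level set `P'` out of `P'`, and the level of `P'` is at least `1 - η`. Then Chang's theorem for `T` and the positivity of
the Fourier transform of `1_(P') * 1_(-P')` give a Bohr set `B` with `|P' ∩ (P' - x)| ≥ (1 - 4 η) |P'|` for all `x ∈ B`.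
For the energy one uses the theorem of Balog, Szemerédi and Gowers and Plünnecke's inequality.
-/

set_option autoImplicit false

namespace Pool.Agent.Results.MP_169871_nt.GrowthAndEnergy

/-- The Bohr set `B(Γ, ε) = {x ∈ ℤ/N : ‖γ x / N‖ ≤ ε for all γ ∈ Γ}`; the norm is the distance to the nearest
integer. -/
def bohr {N : ℕ} (Γ : Finset (ZMod N)) (ε : ℝ) : Set (ZMod N) :=
  {x | ∀ γ ∈ Γ, |((γ * x).val : ℝ) / (N : ℝ) - ((round (((γ * x).val : ℝ) / (N : ℝ)) : ℤ) : ℝ)| ≤ ε}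

/-- The set `2A - 2A`. -/
def twoAMinusTwoA {N : ℕ} (A : Finset (ZMod N)) : Set (ZMod N) :=
  {x | ∃ a₁ ∈ A, ∃ a₂ ∈ A, ∃ a₃ ∈ A, ∃ a₄ ∈ A, x = a₁ + a₂ - a₃ - a₄}

/-- The set `X + Y`. -/
def sumset {N : ℕ} (X Y : Finset (ZMod N)) : Set (ZMod N) := {z | ∃ x ∈ X, ∃ y ∈ Y, z = x + y}

/-- The set `X + Y - X - Y`. -/
def fourfold {N : ℕ} (X Y : Finset (ZMod N)) : Set (ZMod N) :=
  {z | ∃ x₁ ∈ X, ∃ y₁ ∈ Y, ∃ x₂ ∈ X, ∃ y₂ ∈ Y, z = x₁ + y₁ - x₂ - y₂}

/-- The additive energy: the number of the quadruples `(a, b, c, d)` of elements of `A` with `a + b = c + d`. -/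
def energy {N : ℕ} (A : Finset (ZMod N)) : ℕ :=
  ((A ×ˢ A ×ˢ A ×ˢ A).filter fun p => p.1 + p.2.1 = p.2.2.1 + p.2.2.2).card

/-- A translate `t + x`, `x ∈ B`, of `B` is in `W` up to a proportion `η`. -/
def AlmostContains {N : ℕ} (η : ℝ) (W B : Set (ZMod N)) : Prop :=
  ∃ t : ZMod N, (1 - η) * (B.ncard : ℝ) ≤ ({x ∈ B | t + x ∈ W}.ncard : ℝ)

/-- The conclusion of Q1 for `A`, with the constants `C` and `c`: `2A - 2A` contains a Bohr set with at most
`C log (1/α)` frequencies and radius at least `c / log (1/α)`. -/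
def ConclusionQ1 {N : ℕ} (C c : ℝ) (A : Finset (ZMod N)) : Prop :=
  ∃ (Γ : Finset (ZMod N)) (ε : ℝ), 0 < ε ∧ (Γ.card : ℝ) ≤ C * Real.log ((N : ℝ) / (A.card : ℝ)) ∧
    c / Real.log ((N : ℝ) / (A.card : ℝ)) ≤ ε ∧ bohr Γ ε ⊆ twoAMinusTwoA A

open scoped Pointwise in
theorem sumset_eq {N : ℕ} (X Y : Finset (ZMod N)) : sumset X Y = ((X + Y : Finset (ZMod N)) : Set (ZMod N)) := by
  ext z
  rw [Finset.mem_coe, Finset.mem_add]
  constructor
  · rintro ⟨x, hx, y, hy, rfl⟩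
    exact ⟨x, hx, y, hy, rfl⟩
  · rintro ⟨x, hx, y, hy, rfl⟩
    exact ⟨x, hx, y, hy, rfl⟩

theorem energy_eq {N : ℕ} (A : Finset (ZMod N)) : energy A = A.addEnergy A := by
  rw [Finset.addEnergy_eq_card_filter]
  unfold energy
  refine Finset.card_nbij' (fun p => ((p.1, p.2.1), (p.2.2.1, p.2.2.2))) (fun p => (p.1.1, p.1.2, p.2.1, p.2.2))
    ?_ ?_ ?_ ?_
  · intro p hp
    simp only [Finset.coe_filter, Finset.mem_product, Set.mem_ofPred_eq] at hp ⊢
    exact ⟨⟨⟨hp.1.1, hp.1.2.1⟩, hp.1.2.2.1, hp.1.2.2.2⟩, hp.2⟩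
  · intro p hp
    simp only [Finset.coe_filter, Finset.mem_product, Set.mem_ofPred_eq] at hp ⊢
    exact ⟨⟨hp.1.1.1, hp.1.1.2, hp.1.2.1, hp.1.2.2⟩, hp.2⟩
  · intro p _
    rfl
  · intro p _
    rfl

theorem zero_mem_bohr {N : ℕ} (Γ : Finset (ZMod N)) (ε : ℝ) (hε : 0 ≤ ε) : (0 : ZMod N) ∈ bohr Γ ε := by
  intro γ _
  rw [mul_zero]
  have : ((0 : ZMod N).val : ℝ) / (N : ℝ) = 0 := by
    rw [ZMod.val_zero, Nat.cast_zero, zero_div]
  rw [this]
  simpa using hε

open scoped Pointwise in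
/-- from finite sets to sets -/
theorem almost_of {N : ℕ} [NeZero N] (X Y : Finset (ZMod N)) (Γ : Finset (ZMod N)) (ε η η' : ℝ) (hε : 0 ≤ ε)
    (hη : η' ≤ η)
    (h : ∀ D : Finset (ZMod N), D.Nonempty → (∀ x ∈ D, x ∈ bohr Γ ε) →
      ∃ t : ZMod N, (1 - η') * (D.card : ℝ) ≤ ((D.filter fun x => t + x ∈ X + Y).card : ℝ)) :
    AlmostContains η (sumset X Y) (bohr Γ ε) := by
  classical
  have hmem : ∀ x, x ∈ (Finset.univ.filter fun x => x ∈ bohr Γ ε) ↔ x ∈ bohr Γ ε := by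
    intro x
    simp
  have hD : ((Finset.univ.filter fun x => x ∈ bohr Γ ε : Finset (ZMod N)) : Set (ZMod N)) = bohr Γ ε := by
    ext x
    rw [Finset.mem_coe, hmem]
  obtain ⟨t, ht⟩ := h (Finset.univ.filter fun x => x ∈ bohr Γ ε) ⟨0, (hmem 0).2 (zero_mem_bohr Γ ε hε)⟩
    fun x hx => (hmem x).1 hx
  refine ⟨t, ?_⟩
  have e1 : ((bohr Γ ε).ncard : ℝ) = ((Finset.univ.filter fun x => x ∈ bohr Γ ε : Finset (ZMod N)).card : ℝ) := by
    rw [← Set.ncard_coe_finset, hD]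
  have e2 : (({x ∈ bohr Γ ε | t + x ∈ sumset X Y} : Set (ZMod N)).ncard : ℝ) =
      (((Finset.univ.filter fun x => x ∈ bohr Γ ε : Finset (ZMod N)).filter fun x => t + x ∈ X + Y).card : ℝ) := by
    rw [← Set.ncard_coe_finset]
    congr 2
    ext x
    rw [Finset.mem_coe, Finset.mem_filter, hmem, sumset_eq]
    rfl
  rw [e1, e2]
  refine le_trans ?_ ht
  apply mul_le_mul_of_nonneg_right _ (Nat.cast_nonneg _)
  linarith

/-- a small number -/
theorem small_eta (η : ℝ) (hη : 0 < η) : ∃ η' : ℝ, 0 < η' ∧ η' < 1 / 4 ∧ 5 * η' ≤ η := by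
  refine ⟨min η 1 / 5, by positivity, ?_, ?_⟩
  · have := min_le_right η 1
    linarith
  · have := min_le_left η 1
    linarith

open scoped Pointwise in
/-- three sets -/
theorem part_one (η : ℝ) (hη : 0 < η) : ∃ C c : ℝ, 0 < C ∧ 0 < c ∧
    ∀ N : ℕ, 0 < N → ∀ X Y S : Finset (ZMod N), X.Nonempty → Y.Nonempty → S.Nonempty → ∀ p q s : ℝ, 0 ≤ p → 0 ≤ q →
      s = Real.log ((N : ℝ) / (S.card : ℝ)) → ((sumset X Y).ncard : ℝ) ≤ Real.exp p * Y.card →
      ((sumset X Y).ncard : ℝ) ≤ Real.exp q * X.card → ((sumset X S).ncard : ℝ) ≤ Real.exp q * X.card →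
      ∃ (Γ : Finset (ZMod N)) (ε : ℝ), 0 < ε ∧
        (Γ.card : ℝ) ≤ C * (s + (1 + p) * (1 + p + q) * (Real.log (2 + p) ^ 3 * Real.log (2 + p + q + s))) ∧
        c / (1 + p + q + s) ≤ ε ∧ bohr Γ ε ⊆ fourfold X Y ∧ AlmostContains η (sumset X Y) (bohr Γ ε) := by
  classical
  obtain ⟨η', h1, h2, h3⟩ := small_eta η hη
  refine ⟨10 ^ 18 / η' ^ 8, η' / 10 ^ 5, by positivity, by positivity, ?_⟩
  intro N hN X Y S hX hY hS p q s hp hq hs g1 g2 g3
  have : NeZero N := ⟨hN.ne'⟩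
  have hSpos : (0 : ℝ) < S.card := by exact_mod_cast hS.card_pos
  have hs0 : 0 ≤ s := by
    rw [hs]
    apply Real.log_nonneg
    rw [le_div_iff₀ hSpos, one_mul]
    have := Finset.card_le_univ S
    rw [ZMod.card] at this
    exact_mod_cast this
  rw [sumset_eq, Set.ncard_coe_finset] at g1 g2 g3
  obtain ⟨Γ, k1, k2, k3⟩ := Pool.Agent.H89.LV.three X Y S hX hY hS η' h1 h2 p q s hp hq hs g1 g2 g3
  have hε : 0 < η' / (10 ^ 5 * (1 + s + p + q)) := by positivity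
  refine ⟨Γ, η' / (10 ^ 5 * (1 + s + p + q)), hε, k1, ?_, ?_, ?_⟩
  · rw [div_div]
    apply le_of_eq
    congr 2
    ring
  · intro x hx
    obtain ⟨w₁, hw₁, w₂, hw₂, rfl⟩ := k2 x hx
    rw [Finset.mem_add] at hw₁ hw₂
    obtain ⟨x₁, hx₁, y₁, hy₁, rfl⟩ := hw₁
    obtain ⟨x₂, hx₂, y₂, hy₂, rfl⟩ := hw₂
    exact ⟨x₁, hx₁, y₁, hy₁, x₂, hx₂, y₂, hy₂, by abel⟩
  · exact almost_of X Y Γ _ η (5 * η') hε.le h3 fun D hD hDx => k3 D hD fun x hx γ hγ => hDx x hx γ hγ

theorem log_ge {N : ℕ} (hN : 0 < N) (A : Finset (ZMod N)) (hA : A.Nonempty) (hα : (A.card : ℝ) / (N : ℝ) ≤ 1 / 2) :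
    0.69 ≤ Real.log ((N : ℝ) / (A.card : ℝ)) := by
  have hNpos : (0 : ℝ) < N := by exact_mod_cast hN
  have hApos : (0 : ℝ) < A.card := by exact_mod_cast hA.card_pos
  have h1 : (2 : ℝ) ≤ (N : ℝ) / A.card := by
    rw [div_le_iff₀ hNpos] at hα
    rw [le_div_iff₀ hApos]
    linarith
  have h2 := Real.log_le_log (by norm_num) h1
  linarith [Real.log_two_gt_d9]

theorem almost_mono {N : ℕ} [NeZero N] {η : ℝ} {W W' B : Set (ZMod N)} (h : W ⊆ W') (h1 : AlmostContains η W B) :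
    AlmostContains η W' B := by
  obtain ⟨t, ht⟩ := h1
  refine ⟨t, ht.trans ?_⟩
  have : ({x ∈ B | t + x ∈ W}).ncard ≤ ({x ∈ B | t + x ∈ W'}).ncard :=
    Set.ncard_le_ncard (fun x hx => ⟨hx.1, h hx.2⟩) (Set.toFinite _)
  exact_mod_cast this

open scoped Pointwise in
/-- energy -/
theorem part_two (η : ℝ) (hη : 0 < η) : ∃ C c : ℝ, 0 < C ∧ 0 < c ∧
    ∀ N : ℕ, 0 < N → ∀ A : Finset (ZMod N), (A.card : ℝ) / (N : ℝ) ≤ 1 / 2 →
      ∀ B : Finset (ZMod N), B ⊆ A → B.Nonempty → ∀ K : ℝ, (B.card : ℝ) ^ 3 ≤ K * energy B →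
      ∃ (Γ : Finset (ZMod N)) (ε : ℝ), 0 < ε ∧
        (Γ.card : ℝ) ≤ C * (Real.log ((N : ℝ) / (B.card : ℝ)) + Real.log K ^ 2 * Real.log (2 + Real.log K) ^ 4) ∧
        c / Real.log ((N : ℝ) / (B.card : ℝ)) ≤ ε ∧ bohr Γ ε ⊆ twoAMinusTwoA A ∧
        AlmostContains η (sumset A A) (bohr Γ ε) := by
  classical
  obtain ⟨η', h1, h2, h3⟩ := small_eta η hη
  refine ⟨10 ^ 28 / η' ^ 8, η' / 10 ^ 7, by positivity, by positivity, ?_⟩
  intro N hN A hα B hBA hB K hK
  have : NeZero N := ⟨hN.ne'⟩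
  have hNpos : (0 : ℝ) < N := by exact_mod_cast hN
  have hBAc : (B.card : ℝ) ≤ A.card := by exact_mod_cast Finset.card_le_card hBA
  have hB2 : (B.card : ℝ) / N ≤ 1 / 2 := (div_le_div_of_nonneg_right hBAc hNpos.le).trans hα
  have hl := log_ge hN B hB hB2
  obtain ⟨L, hL⟩ : ∃ L : ℝ, L = Real.log ((N : ℝ) / B.card) := ⟨_, rfl⟩
  rw [energy_eq] at hK
  obtain ⟨Γ, k1, k2, k3⟩ := Pool.Agent.H89.LV.energy_bound B hB hB2 K hK η' h1 h2 L hL
  rw [← hL] at hl ⊢
  have hLpos : 0 < L := by linarith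
  have hε : 0 < η' / (10 ^ 7 * L) := by positivity
  refine ⟨Γ, η' / (10 ^ 7 * L), hε, k1, ?_, ?_, ?_⟩
  · rw [div_div]
  · intro x hx
    obtain ⟨w₁, hw₁, w₂, hw₂, rfl⟩ := k2 x hx
    rw [Finset.mem_add] at hw₁ hw₂
    obtain ⟨x₁, hx₁, y₁, hy₁, rfl⟩ := hw₁
    obtain ⟨x₂, hx₂, y₂, hy₂, rfl⟩ := hw₂
    exact ⟨x₁, hBA hx₁, y₁, hBA hy₁, x₂, hBA hx₂, y₂, hBA hy₂, by abel⟩
  · have h4 : AlmostContains η (sumset B B) (bohr Γ (η' / (10 ^ 7 * L))) :=
      almost_of B B Γ _ η (5 * η') hε.le h3 fun D hD hDx => k3 D hD fun x hx γ hγ => hDx x hx γ hγ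
    refine almost_mono ?_ h4
    rintro z ⟨x, hx, y, hy, rfl⟩
    exact ⟨x, hBA hx, y, hBA hy, rfl⟩

/-- the size of a subset -/
theorem log_size {N : ℕ} (hN : 0 < N) (A B : Finset (ZMod N)) (hA : A.Nonempty) (hB : B.Nonempty) (M : ℝ)
    (h : ((A.card : ℝ) / (N : ℝ)) ^ M * (N : ℝ) ≤ B.card) :
    Real.log ((N : ℝ) / B.card) ≤ M * Real.log ((N : ℝ) / A.card) := by
  have hNpos : (0 : ℝ) < N := by exact_mod_cast hN
  have ha : (0 : ℝ) < A.card := by exact_mod_cast hA.card_pos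
  have hb : (0 : ℝ) < B.card := by exact_mod_cast hB.card_pos
  have hd : 0 < (A.card : ℝ) / N := by positivity
  have h5 : (N : ℝ) / B.card ≤ ((A.card : ℝ) / N) ^ (-M) := by
    rw [Real.rpow_neg hd.le, div_le_iff₀ hb]
    have h6 : 0 < ((A.card : ℝ) / N) ^ M := Real.rpow_pos_of_pos hd M
    rw [inv_mul_eq_div, le_div_iff₀ h6]
    linarith
  have h7 := Real.log_le_log (by positivity) h5
  rw [Real.log_rpow hd] at h7
  have h8 : Real.log ((A.card : ℝ) / N) = -Real.log ((N : ℝ) / A.card) := by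
    rw [← Real.log_inv, inv_div]
  rw [h8] at h7
  linarith

open scoped Pointwise in
/-- Cauchy-Schwarz: the passage from `|B + B| ≤ K |B|` to `|B|³ ≤ K E(B)`. -/
theorem cube_le_of_sum {N : ℕ} {B : Finset (ZMod N)} (hB : B.Nonempty) {K : ℝ}
    (h : ((sumset B B).ncard : ℝ) ≤ K * B.card) : (B.card : ℝ) ^ 3 ≤ K * energy B := by
  rw [sumset_eq, Set.ncard_coe_finset] at h
  have hb : (0 : ℝ) < B.card := by exact_mod_cast hB.card_pos
  have h0 := Finset.le_card_add_mul_addEnergy B B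
  rw [← energy_eq] at h0
  have h1 : (B.card : ℝ) ^ 2 * (B.card : ℝ) ^ 2 ≤ ((B + B).card : ℝ) * energy B := by exact_mod_cast h0
  have hE : (0 : ℝ) ≤ energy B := Nat.cast_nonneg _
  have h2 : (B.card : ℝ) * (B.card : ℝ) ^ 3 ≤ B.card * (K * energy B) := by
    calc (B.card : ℝ) * (B.card : ℝ) ^ 3 = (B.card : ℝ) ^ 2 * (B.card : ℝ) ^ 2 := by ring
      _ ≤ ((B + B).card : ℝ) * energy B := h1
      _ ≤ K * B.card * energy B := mul_le_mul_of_nonneg_right h hE
      _ = B.card * (K * energy B) := by ring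
  exact le_of_mul_le_mul_left h2 hb

/-- a bound for a logarithm -/
theorem log_mix (D l x : ℝ) (hD : 1 ≤ D) (hl : 0 ≤ l) (hx0 : 0 ≤ x) (hx : x ≤ D * (2 + l)) :
    Real.log (2 + x) ≤ (2 * Real.log (2 * D) + 2) * Real.log (2 + l) := by
  have h1 : 0.69 ≤ Real.log (2 + l) := by
    have := Real.log_le_log (by norm_num) (show (2 : ℝ) ≤ 2 + l by linarith)
    linarith [Real.log_two_gt_d9]
  have h2 : 2 + x ≤ 2 * D * (2 + l) := by nlinarith
  have h3 := Real.log_le_log (by linarith) h2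
  rw [Real.log_mul (by linarith) (by linarith)] at h3
  have h4 : 0 ≤ Real.log (2 * D) := Real.log_nonneg (by linarith)
  have h5 : Real.log (2 * D) ≤ 2 * Real.log (2 * D) * Real.log (2 + l) := by nlinarith
  linarith

/-- **Growth, energy, and Q1.** -/
theorem result :
    -- (1) three sets
    (∀ η : ℝ, 0 < η → ∃ C c : ℝ, 0 < C ∧ 0 < c ∧
      ∀ N : ℕ, 0 < N → ∀ X Y S : Finset (ZMod N), X.Nonempty → Y.Nonempty → S.Nonempty → ∀ p q s : ℝ, 0 ≤ p → 0 ≤ q →
        s = Real.log ((N : ℝ) / (S.card : ℝ)) → ((sumset X Y).ncard : ℝ) ≤ Real.exp p * Y.card →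
        ((sumset X Y).ncard : ℝ) ≤ Real.exp q * X.card → ((sumset X S).ncard : ℝ) ≤ Real.exp q * X.card →
        ∃ (Γ : Finset (ZMod N)) (ε : ℝ), 0 < ε ∧
          (Γ.card : ℝ) ≤ C * (s + (1 + p) * (1 + p + q) * (Real.log (2 + p) ^ 3 * Real.log (2 + p + q + s))) ∧
          c / (1 + p + q + s) ≤ ε ∧ bohr Γ ε ⊆ fourfold X Y ∧ AlmostContains η (sumset X Y) (bohr Γ ε)) ∧
    -- (2) energy
    (∀ η : ℝ, 0 < η → ∃ C c : ℝ, 0 < C ∧ 0 < c ∧
      ∀ N : ℕ, 0 < N → ∀ A : Finset (ZMod N), (A.card : ℝ) / (N : ℝ) ≤ 1 / 2 →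
        ∀ B : Finset (ZMod N), B ⊆ A → B.Nonempty → ∀ K : ℝ, (B.card : ℝ) ^ 3 ≤ K * energy B →
        ∃ (Γ : Finset (ZMod N)) (ε : ℝ), 0 < ε ∧
          (Γ.card : ℝ) ≤ C * (Real.log ((N : ℝ) / (B.card : ℝ)) + Real.log K ^ 2 * Real.log (2 + Real.log K) ^ 4) ∧
          c / Real.log ((N : ℝ) / (B.card : ℝ)) ≤ ε ∧ bohr Γ ε ⊆ twoAMinusTwoA A ∧
          AlmostContains η (sumset A A) (bohr Γ ε)) ∧
    -- (3) Q1 for the sets `A` with a large subset of small doubling or of large energy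
    (∀ M : ℝ, 0 < M → ∃ C c : ℝ, 0 < C ∧ 0 < c ∧
      ∀ N : ℕ, 0 < N → ∀ A : Finset (ZMod N), (A.card : ℝ) / (N : ℝ) ≤ 1 / 2 → ∀ l : ℝ,
        l = Real.log ((N : ℝ) / (A.card : ℝ)) → ∀ B : Finset (ZMod N), B ⊆ A → B.Nonempty →
        ((A.card : ℝ) / (N : ℝ)) ^ M * (N : ℝ) ≤ B.card →
        (Real.exp (-(Real.sqrt (M * l) / Real.log (2 + l) ^ 2)) * (B.card : ℝ) ^ 3 ≤ energy B ∨
          ((sumset B B).ncard : ℝ) ≤ Real.exp (Real.sqrt (M * l) / Real.log (2 + l) ^ 2) * B.card) →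
        ConclusionQ1 C c A) ∧
    -- (4) Q1 for the sets `A` containing a pair of sets `X`, `Y` of slow growth
    (∀ M : ℝ, 0 < M → ∃ C c : ℝ, 0 < C ∧ 0 < c ∧
      ∀ N : ℕ, 0 < N → ∀ A : Finset (ZMod N), (A.card : ℝ) / (N : ℝ) ≤ 1 / 2 → ∀ l : ℝ,
        l = Real.log ((N : ℝ) / (A.card : ℝ)) → ∀ X Y S : Finset (ZMod N), X ⊆ A → Y ⊆ A →
        X.Nonempty → Y.Nonempty → S.Nonempty → ((A.card : ℝ) / (N : ℝ)) ^ M * (N : ℝ) ≤ S.card →
        ∀ p q : ℝ, 0 ≤ p → 0 ≤ q → ((sumset X Y).ncard : ℝ) ≤ Real.exp p * Y.card →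
        ((sumset X Y).ncard : ℝ) ≤ Real.exp q * X.card → ((sumset X S).ncard : ℝ) ≤ Real.exp q * X.card →
        (1 + p) * (1 + p + q) * Real.log (2 + l) ^ 4 ≤ M * l → ConclusionQ1 C c A) := by
  refine ⟨part_one, part_two, ?_, ?_⟩
  · intro M hM
    obtain ⟨C, c, hC, hc, h⟩ := part_two 1 one_pos
    obtain ⟨D, hD⟩ : ∃ D : ℝ, D = 2 * Real.log (2 * (4 + 4 * M)) + 2 := ⟨_, rfl⟩
    have hD0 : 0 ≤ D := by
      have := Real.log_nonneg (show 1 ≤ 2 * (4 + 4 * M) by linarith)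
      linarith
    refine ⟨C * (M + D ^ 4 * M), c / M, by positivity, by positivity, ?_⟩
    intro N hN A hα l hl B hBA hB hBM hor
    have hNpos : (0 : ℝ) < N := by exact_mod_cast hN
    have hA : A.Nonempty := hB.mono hBA
    have hBAc : (B.card : ℝ) ≤ A.card := by exact_mod_cast Finset.card_le_card hBA
    have hB2 : (B.card : ℝ) / N ≤ 1 / 2 := (div_le_div_of_nonneg_right hBAc hNpos.le).trans hα
    have hl1 := log_ge hN A hA hα
    have hb1 := log_ge hN B hB hB2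
    have hlB := log_size hN A B hA hB M hBM
    rw [← hl] at hl1 hlB
    obtain ⟨κ, hκ⟩ : ∃ κ : ℝ, κ = Real.sqrt (M * l) / Real.log (2 + l) ^ 2 := ⟨_, rfl⟩
    rw [← hκ] at hor
    have hlog : 0.69 ≤ Real.log (2 + l) := by
      have := Real.log_le_log (by norm_num) (show (2 : ℝ) ≤ 2 + l by linarith)
      linarith [Real.log_two_gt_d9]
    have hκ0 : 0 ≤ κ := by rw [hκ]; positivity
    have hK : (B.card : ℝ) ^ 3 ≤ Real.exp κ * energy B := by
      rcases hor with h1 | h1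
      · have h2 := mul_le_mul_of_nonneg_left h1 (Real.exp_pos κ).le
        rw [← mul_assoc, ← Real.exp_add, add_neg_cancel, Real.exp_zero, one_mul] at h2
        exact h2
      · exact cube_le_of_sum hB h1
    obtain ⟨Γ, ε, h1, h2, h3, h4, -⟩ := h N hN A hα B hBA hB _ hK
    rw [Real.log_exp] at h2
    have hκ2 : κ ^ 2 * Real.log (2 + l) ^ 4 = M * l := by
      rw [hκ, div_pow, Real.sq_sqrt (by positivity)]
      field_simp
    have hκl : κ ≤ (4 + 4 * M) * (2 + l) := by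
      have e1 : Real.sqrt (M * l) ≤ (M + l) / 2 + 0 := by
        rw [add_zero]
        apply Real.sqrt_le_iff.2
        constructor
        · positivity
        · nlinarith [sq_nonneg (M - l)]
      have e2 : 0.47 ≤ Real.log (2 + l) ^ 2 := by nlinarith
      have e3 : κ ≤ Real.sqrt (M * l) / 0.47 := by
        rw [hκ]
        exact div_le_div_of_nonneg_left (Real.sqrt_nonneg _) (by norm_num) e2
      have e4 : Real.sqrt (M * l) / 0.47 ≤ 4 * (M + l) := by
        rw [div_le_iff₀ (by norm_num)]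
        nlinarith
      nlinarith
    have hlogκ : Real.log (2 + κ) ≤ D * Real.log (2 + l) := by
      rw [hD]
      exact log_mix (4 + 4 * M) l κ (by linarith) (by linarith) hκ0 hκl
    have hlogκ0 : 0 ≤ Real.log (2 + κ) := Real.log_nonneg (by linarith)
    refine ⟨Γ, ε, h1, ?_, ?_, h4⟩
    · rw [← hl]
      have e1 : κ ^ 2 * Real.log (2 + κ) ^ 4 ≤ D ^ 4 * (M * l) := by
        calc κ ^ 2 * Real.log (2 + κ) ^ 4 ≤ κ ^ 2 * (D * Real.log (2 + l)) ^ 4 := by gcongr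
          _ = D ^ 4 * (κ ^ 2 * Real.log (2 + l) ^ 4) := by ring
          _ = _ := by rw [hκ2]
      calc (Γ.card : ℝ) ≤ _ := h2
        _ ≤ C * (M * l + D ^ 4 * (M * l)) := by gcongr
        _ = _ := by ring
    · rw [← hl]
      refine le_trans ?_ h3
      rw [div_div]
      exact div_le_div_of_nonneg_left hc.le (by linarith) hlB
  · intro M hM
    obtain ⟨C, c, hC, hc, h⟩ := part_one 1 one_pos
    obtain ⟨D, hD⟩ : ∃ D : ℝ, D = 2 * Real.log (2 * (1 + 6 * M)) + 2 := ⟨_, rfl⟩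
    have hD0 : 0 ≤ D := by
      have := Real.log_nonneg (show 1 ≤ 2 * (1 + 6 * M) by linarith)
      linarith
    refine ⟨C * (M + D ^ 4 * M), c / (6 * M), by positivity, by positivity, ?_⟩
    intro N hN A hα l hl X Y S hXA hYA hX hY hS hSM p q hp hq g1 g2 g3 g4
    have hA : A.Nonempty := hX.mono hXA
    have hl1 := log_ge hN A hA hα
    have hsl := log_size hN A S hA hS M hSM
    rw [← hl] at hl1 hsl
    obtain ⟨s, hs⟩ : ∃ s : ℝ, s = Real.log ((N : ℝ) / (S.card : ℝ)) := ⟨_, rfl⟩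
    rw [← hs] at hsl
    have : NeZero N := ⟨hN.ne'⟩
    have hs0 : 0 ≤ s := by
      rw [hs]
      apply Real.log_nonneg
      have hSpos : (0 : ℝ) < S.card := by exact_mod_cast hS.card_pos
      rw [le_div_iff₀ hSpos, one_mul]
      have := Finset.card_le_univ S
      rw [ZMod.card] at this
      exact_mod_cast this
    obtain ⟨Γ, ε, h1, h2, h3, h4, -⟩ := h N hN X Y S hX hY hS p q s hp hq hs g1 g2 g3
    have hlog : 0.69 ≤ Real.log (2 + l) := by
      have := Real.log_le_log (by norm_num) (show (2 : ℝ) ≤ 2 + l by linarith)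
      linarith [Real.log_two_gt_d9]
    have hpq : 1 + p + q ≤ 5 * M * l := by
      have e1 : 0.2 ≤ Real.log (2 + l) ^ 4 := by
        calc (0.2 : ℝ) ≤ 0.69 ^ 4 := by norm_num
          _ ≤ _ := by gcongr
      have e2 : 1 + p + q ≤ (1 + p) * (1 + p + q) := by nlinarith
      have e3 : (1 + p) * (1 + p + q) * 0.2 ≤ (1 + p) * (1 + p + q) * Real.log (2 + l) ^ 4 := by gcongr
      linarith
    have hlogp0 : 0 ≤ Real.log (2 + p) := Real.log_nonneg (by linarith)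
    have hlogq0 : 0 ≤ Real.log (2 + (p + q + s)) := Real.log_nonneg (by linarith)
    have e1 : Real.log (2 + p) ≤ D * Real.log (2 + l) := by
      rw [hD]
      refine log_mix (1 + 6 * M) l p (by linarith) (by linarith) hp ?_
      nlinarith
    have e2 : Real.log (2 + (p + q + s)) ≤ D * Real.log (2 + l) := by
      rw [hD]
      refine log_mix (1 + 6 * M) l (p + q + s) (by linarith) (by linarith) (by linarith) ?_
      nlinarith
    have e3 : 2 + p + q + s = 2 + (p + q + s) := by ring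
    rw [e3] at h2
    refine ⟨Γ, ε, h1, ?_, ?_, ?_⟩
    · rw [← hl]
      have e4 : (1 + p) * (1 + p + q) * (Real.log (2 + p) ^ 3 * Real.log (2 + (p + q + s))) ≤ D ^ 4 * (M * l) := by
        calc (1 + p) * (1 + p + q) * (Real.log (2 + p) ^ 3 * Real.log (2 + (p + q + s))) ≤
              (1 + p) * (1 + p + q) * ((D * Real.log (2 + l)) ^ 3 * (D * Real.log (2 + l))) := by gcongr
          _ = D ^ 4 * ((1 + p) * (1 + p + q) * Real.log (2 + l) ^ 4) := by ring
          _ ≤ _ := by gcongr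
      calc (Γ.card : ℝ) ≤ _ := h2
        _ ≤ C * (M * l + D ^ 4 * (M * l)) := by gcongr
        _ = _ := by ring
    · rw [← hl]
      refine le_trans ?_ h3
      rw [div_div]
      apply div_le_div_of_nonneg_left hc.le (by linarith)
      linarith
    · intro x hx
      obtain ⟨x₁, hx₁, y₁, hy₁, x₂, hx₂, y₂, hy₂, rfl⟩ := h4 hx
      exact ⟨x₁, hXA hx₁, y₁, hYA hy₁, x₂, hXA hx₂, y₂, hYA hy₂, rfl⟩

end Pool.Agent.Results.MP_169871_nt.GrowthAndEnergy
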