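import Pool.Agent.H89.BH.Poly

/-!
# Q1 for the sets which grow slowly under the addition of a set of polynomial density

Let `A ⊆ ℤ/N` have density `α ≤ 1/2`, let `ℓ = log (1/α)`, and let `mB` be the set of the sums of `m` elements of `B`.

The conclusion of Q1 holds for `A`, with constants depending on `C` only, if there are nonempty sets `A' ⊆ A` and
`B ⊆ ℤ/N`, `m ≥ 1` and `K ≥ 1` with `|A' + mB| ≤ K |A'|` such that

* `K ≤ C` and `|B| ≥ α^C N` (for example `m = 1`: a bounded growth `|A' + B| ≤ C |A'|` for one set `B` of density at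
  least `α^C`), or
* `K ≤ √(C ℓ)`, `m > 8 log (8 K²)` and `|B| ≥ α^C N`, or
* `K ≤ √(C ℓ)`, `m ≥ C₁ (2 + ℓ)^9` and `|B| ≥ exp (- C ℓ log (2 + ℓ)) N`.

There is no condition on the density of `A'`, and `B` is any set. The bounds for the Bohr sets are: for `m = 1` at most
`512 K² (log (N/|B|) + log (16 K)) + 1` frequencies and radius `1 / (26 K)`, and for `m > 8 log (8 K²)` at most
`8 K² + 8 log (N/|B|)` frequencies and radius `1 / (13 (8 log (N/|B|) + 1))`.

For `K < 3/2` and one copy of `B`, or if `A` is a dense subset of a translate of a given Bohr set or progression of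
small dimension, the library has the conclusion of Q1 (`RankFreeCriterion`, `DenseOnProgressions`, `RandomPoints`,
`ImproperProgressions`); the methods of these results use that `A - A` or `2A - 2A` contains a structured set, or
translates with a large overlap, and stop at `K = 2`. The results for large additive energy (`AdditiveEnergy`,
`EnergyQuarterPower`, `QuasipolyEnergy`) need sets `B` which are not much smaller than `A`.

Proof. Let `w(ψ) = |Â(ψ)|² / (N |A|)` be the spectral measure of `A`, so that `g(y) = |A ∩ (A - y)| / |A|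
= ∑ w(ψ) ψ(y)`. For `m = 1`, `g ≥ 1/(2K)` on a set `D` with `|D| ≥ |B| / (2K)`. Draw `n ≈ K² log (8N/|D|)` characters
at random with the distribution `w`. By Hoeffding's inequality their mean `F` differs from `g` by at most `1/(8K)` with
fewer than `|D|/2` exceptional points, so for `x` in the Bohr set of the sample there is a `y ∈ D` with `y`, `y + x` not
exceptional, hence `g(y) > 0` and `g(y + x) > 0`, and `x ∈ 2A - 2A`. For `m > 8 log (8 K²)` let `ν` be the distribution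
of `∑ (bᵢ - bᵢ')`, `i ≤ m`; its Fourier coefficients are `u = |B̂|^(2m) / |B|^(2m) ≥ 0`. The function
`T(x) = E_ν g(y) g(y + x)` is `∑ w(ψ) c(ψ) ψ(x)` with `c(ψ) = ∑ w(φ) u(φ + ψ)`, and `T(0) ≥ 1/K²`. The characters with
`c(ψ) ≥ 1/(4K²)` are in at most `8 K²` translates of the set `Λ` of the characters that are nearly constant on `B`,
since the sets `{φ : u(φ + ψ) ≥ 1/(8K²)}` have `w`-measure at least `1/(8K²)`. By Chang's theorem `Λ` has dimension at
most `8 log (N/|B|)`. If `m` is a large power of `2 + ℓ` then the sets `kΛ`, `k ≤ (2 + ℓ)^4`, have at most `4N/|B|`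
elements; the powers of the Fejér kernel of a set `kΛ` with `|(k + 1) Λ| ≤ (1 + (2 + ℓ)^(-2)/2) |kΛ|` show that the Bohr
set of `Λ` of radius `(2 + ℓ)^(-2)/2` has at least `|B|/8` elements, and the rank reduction of the library
(`Q166/RF/Free`) applies.
-/

set_option autoImplicit false

namespace Pool.Agent.Results.MP_169871_nt.SlowGrowth

/-- The Bohr set `B(Γ, ε) = {x ∈ ℤ/N : ‖γ x / N‖ ≤ ε for all γ ∈ Γ}`; the norm is the distance to the nearest
integer. -/
def bohr {N : ℕ} (Γ : Finset (ZMod N)) (ε : ℝ) : Set (ZMod N) :=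
  {x | ∀ γ ∈ Γ, |((γ * x).val : ℝ) / (N : ℝ) - ((round (((γ * x).val : ℝ) / (N : ℝ)) : ℤ) : ℝ)| ≤ ε}

/-- The set `2A - 2A`. -/
def twoAMinusTwoA {N : ℕ} (A : Finset (ZMod N)) : Set (ZMod N) :=
  {x | ∃ a₁ ∈ A, ∃ a₂ ∈ A, ∃ a₃ ∈ A, ∃ a₄ ∈ A, x = a₁ + a₂ - a₃ - a₄}

/-- The set `A + mB` of the sums `a + b₁ + … + b_m` with `a ∈ A` and `b₁, …, b_m ∈ B`. -/
def addMany {N : ℕ} (A B : Finset (ZMod N)) (m : ℕ) : Set (ZMod N) :=
  {x | ∃ a ∈ A, ∃ b : Fin m → ZMod N, (∀ i, b i ∈ B) ∧ x = a + ∑ i, b i}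

/-- The conclusion of Q1 for the set `A` with the constants `K₁` and `c₁`: there is a Bohr set `B(Γ, ε) ⊆ 2A - 2A` with
`|Γ| ≤ K₁ log (1/α)` and `ε ≥ c₁ / log (1/α)`, where `α = |A| / N`. -/
def HasBohr {N : ℕ} (A : Finset (ZMod N)) (K₁ c₁ : ℝ) : Prop :=
  ∃ (Γ : Finset (ZMod N)) (ε : ℝ), 0 < ε ∧
    (Γ.card : ℝ) ≤ K₁ * Real.log ((N : ℝ) / (A.card : ℝ)) ∧
    c₁ / Real.log ((N : ℝ) / (A.card : ℝ)) ≤ ε ∧
    bohr Γ ε ⊆ twoAMinusTwoA A

open scoped Pointwise in
theorem mem_nsmul' {N : ℕ} (B : Finset (ZMod N)) (m : ℕ) (x : ZMod N) (hx : x ∈ m • B) :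
    ∃ b : Fin m → ZMod N, (∀ i, b i ∈ B) ∧ x = ∑ i, b i := by
  induction m generalizing x with
  | zero =>
    rw [zero_nsmul, Finset.mem_zero] at hx
    exact ⟨fun i => i.elim0, fun i => i.elim0, by rw [hx]; simp⟩
  | succ m ih =>
    rw [succ_nsmul, Finset.mem_add] at hx
    obtain ⟨y, hy, z, hz, rfl⟩ := hx
    obtain ⟨b, hb, rfl⟩ := ih y hy
    refine ⟨Fin.snoc b z, ?_, ?_⟩
    · intro i
      refine Fin.lastCases ?_ (fun i => ?_) i
      · rw [Fin.snoc_last]; exact hz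
      · rw [Fin.snoc_castSucc]; exact hb i
    · rw [Fin.sum_univ_castSucc, Fin.snoc_last]
      simp only [Fin.snoc_castSucc]

open scoped Pointwise in
theorem addMany_eq {N : ℕ} (A B : Finset (ZMod N)) (m : ℕ) : addMany A B m = ((A + m • B : Finset (ZMod N)) : Set (ZMod N)) := by
  ext x
  rw [Finset.mem_coe, Finset.mem_add]
  constructor
  · rintro ⟨a, ha, b, hb, rfl⟩
    exact ⟨a, ha, _, Pool.Agent.H89.BH.sum_mem_nsmul B m b hb, rfl⟩
  · rintro ⟨a, ha, y, hy, rfl⟩
    obtain ⟨b, hb, rfl⟩ := mem_nsmul' B m y hy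
    exact ⟨a, ha, b, hb, rfl⟩

theorem log_ge {N : ℕ} (hN : 0 < N) (A : Finset (ZMod N)) (hA : A.Nonempty) (hα : (A.card : ℝ) / (N : ℝ) ≤ 1 / 2) :
    Real.log 2 ≤ Real.log ((N : ℝ) / (A.card : ℝ)) := by
  have hNpos : (0 : ℝ) < N := by exact_mod_cast hN
  have hApos : (0 : ℝ) < A.card := by exact_mod_cast hA.card_pos
  apply Real.log_le_log (by norm_num)
  rw [div_le_iff₀ hNpos] at hα
  rw [le_div_iff₀ hApos]
  linarith

open scoped Pointwise in
/-- **Q1 for sets of slow growth.** -/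
theorem result :
    -- (1) one copy of `B`
    (∀ N : ℕ, 0 < N → ∀ A B : Finset (ZMod N), A.Nonempty → B.Nonempty → ∀ K : ℝ, 1 ≤ K →
      ((addMany A B 1).ncard : ℝ) ≤ K * A.card →
      ∃ Γ : Finset (ZMod N),
        (Γ.card : ℝ) ≤ 512 * K ^ 2 * (Real.log ((N : ℝ) / B.card) + Real.log (16 * K)) + 1 ∧
        bohr Γ (1 / (26 * K)) ⊆ twoAMinusTwoA A) ∧
    -- (2) more than `8 log (8 K²)` copies of `B`
    (∀ N : ℕ, 0 < N → ∀ A B : Finset (ZMod N), A.Nonempty → B.Nonempty → ∀ (m : ℕ) (K : ℝ), 1 ≤ K →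
      8 * Real.log (8 * K ^ 2) < m → ((addMany A B m).ncard : ℝ) ≤ K * A.card →
      ∃ Γ : Finset (ZMod N),
        (Γ.card : ℝ) ≤ 8 * K ^ 2 + 8 * Real.log ((N : ℝ) / B.card) ∧
        bohr Γ (1 / (13 * (8 * Real.log ((N : ℝ) / B.card) + 1))) ⊆ twoAMinusTwoA A) ∧
    -- (3) the conclusion of Q1
    (∀ C : ℝ, 0 < C → ∃ K₁ c₁ : ℝ, 0 < K₁ ∧ 0 < c₁ ∧
      ∀ N : ℕ, 0 < N → ∀ A : Finset (ZMod N), (A.card : ℝ) / (N : ℝ) ≤ 1 / 2 →
      ∀ A' B : Finset (ZMod N), A' ⊆ A → A'.Nonempty → B.Nonempty → ∀ (m : ℕ) (K : ℝ), 1 ≤ m → 1 ≤ K →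
        ((addMany A' B m).ncard : ℝ) ≤ K * A'.card →
        ((K ≤ C ∧
            Real.log ((N : ℝ) / B.card) ≤ C * Real.log ((N : ℝ) / A.card)) ∨
          (K ^ 2 ≤ C * Real.log ((N : ℝ) / A.card) ∧ 8 * Real.log (8 * K ^ 2) < m ∧
            Real.log ((N : ℝ) / B.card) ≤ C * Real.log ((N : ℝ) / A.card)) ∨
          (K ^ 2 ≤ C * Real.log ((N : ℝ) / A.card) ∧ K₁ * (2 + Real.log ((N : ℝ) / A.card)) ^ 9 ≤ m ∧
            Real.log ((N : ℝ) / B.card) ≤
              C * Real.log ((N : ℝ) / A.card) * Real.log (2 + Real.log ((N : ℝ) / A.card)))) →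
        HasBohr A K₁ c₁) := by
  classical
  have part1 : ∀ N : ℕ, 0 < N → ∀ A B : Finset (ZMod N), A.Nonempty → B.Nonempty → ∀ K : ℝ, 1 ≤ K →
      ((addMany A B 1).ncard : ℝ) ≤ K * A.card →
      ∃ Γ : Finset (ZMod N),
        (Γ.card : ℝ) ≤ 512 * K ^ 2 * (Real.log ((N : ℝ) / B.card) + Real.log (16 * K)) + 1 ∧
        bohr Γ (1 / (26 * K)) ⊆ twoAMinusTwoA A := by
    intro N hN A B hA hB K hK h
    have : NeZero N := ⟨hN.ne'⟩
    rw [addMany_eq, Set.ncard_coe_finset, one_nsmul] at h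
    obtain ⟨Γ, h1, h2⟩ := Pool.Agent.H89.BH.one_copy A B hA hB K hK h
    exact ⟨Γ, h1, fun x hx => h2 x hx⟩
  have part2 : ∀ N : ℕ, 0 < N → ∀ A B : Finset (ZMod N), A.Nonempty → B.Nonempty → ∀ (m : ℕ) (K : ℝ), 1 ≤ K →
      8 * Real.log (8 * K ^ 2) < m → ((addMany A B m).ncard : ℝ) ≤ K * A.card →
      ∃ Γ : Finset (ZMod N),
        (Γ.card : ℝ) ≤ 8 * K ^ 2 + 8 * Real.log ((N : ℝ) / B.card) ∧
        bohr Γ (1 / (13 * (8 * Real.log ((N : ℝ) / B.card) + 1))) ⊆ twoAMinusTwoA A := by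
    intro N hN A B hA hB m K hK hm h
    have : NeZero N := ⟨hN.ne'⟩
    rw [addMany_eq, Set.ncard_coe_finset] at h
    obtain ⟨Γ, h1, h2⟩ := Pool.Agent.H89.BH.log_copies A B hA hB m K hK h hm
    exact ⟨Γ, h1, fun x hx => h2 x hx⟩
  refine ⟨part1, part2, ?_⟩
  intro C hC
  obtain ⟨C₁, c₁, hC₁, hc₁, h3⟩ := Pool.Agent.H89.BH.many_copies C hC
  -- the constants
  have hl16 : 0 ≤ Real.log (16 * (C + 1)) := Real.log_nonneg (by linarith)
  refine ⟨C₁ + (512 * C ^ 2 * (C + 2 * Real.log (16 * (C + 1))) + 2) + 16 * C,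
    min c₁ (min (1 / (40 * (C + 1))) (1 / (13 * (8 * C + 2)))), by positivity,
    lt_min hc₁ (lt_min (by positivity) (by positivity)), ?_⟩
  intro N hN A hα A' B hA'A hA' hB m K hm hK hAB hor
  have : NeZero N := ⟨hN.ne'⟩
  have hA : A.Nonempty := hA'.mono hA'A
  have hBpos : (0 : ℝ) < B.card := by exact_mod_cast hB.card_pos
  have hNpos : (0 : ℝ) < N := by exact_mod_cast hN
  have hlog2 := Real.log_two_gt_d9
  have hL := log_ge hN A hA hα
  obtain ⟨L, hLd⟩ : ∃ L : ℝ, L = Real.log ((N : ℝ) / (A.card : ℝ)) := ⟨_, rfl⟩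
  rw [← hLd] at hor hL
  have hL0 : 0.69 ≤ L := by linarith
  have hLpos : 0 < L := by linarith
  have hsub : twoAMinusTwoA A' ⊆ twoAMinusTwoA A := by
    rintro x ⟨a₁, h₁, a₂, h₂, a₃, h₃, a₄, h₄, hx⟩
    exact ⟨a₁, hA'A h₁, a₂, hA'A h₂, a₃, hA'A h₃, a₄, hA'A h₄, hx⟩
  rcases hor with ⟨hKC, hBL⟩ | ⟨hKC, hmK, hBL⟩ | ⟨hKC, hmK, hBL⟩
  · -- bounded `K`
    have h1 : ((addMany A' B 1).ncard : ℝ) ≤ K * A'.card := by
      refine le_trans ?_ hAB
      rw [addMany_eq, addMany_eq, Set.ncard_coe_finset, Set.ncard_coe_finset, one_nsmul]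
      obtain ⟨k, rfl⟩ : ∃ k, m = k + 1 := ⟨m - 1, by omega⟩
      have e1 : A' + (k + 1) • B = (A' + B) + k • B := by
        rw [succ_nsmul, add_comm (k • B) B, add_assoc]
      rw [e1]
      have e2 : (k • B).Nonempty := hB.nsmul
      exact_mod_cast Finset.card_le_card_add_right e2
    obtain ⟨Γ, hΓ, hb⟩ := part1 N hN A' B hA' hB K hK h1
    refine ⟨Γ, 1 / (26 * K), by positivity, ?_, ?_, hb.trans hsub⟩
    · rw [← hLd]
      have h2 : Real.log (16 * K) ≤ Real.log (16 * (C + 1)) := Real.log_le_log (by positivity) (by linarith)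
      have h4 : Real.log (16 * (C + 1)) ≤ 2 * Real.log (16 * (C + 1)) * L := by nlinarith
      have h5 : 0 ≤ Real.log ((N : ℝ) / B.card) + Real.log (16 * K) := by
        have h6 : 0 ≤ Real.log ((N : ℝ) / B.card) := by
          apply Real.log_nonneg
          rw [le_div_iff₀ hBpos, one_mul]
          have := Finset.card_le_univ B
          rw [ZMod.card] at this
          exact_mod_cast this
        have h7 : 0 ≤ Real.log (16 * K) := Real.log_nonneg (by linarith)
        linarith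
      calc (Γ.card : ℝ) ≤ 512 * K ^ 2 * (Real.log ((N : ℝ) / B.card) + Real.log (16 * K)) + 1 := hΓ
        _ ≤ 512 * C ^ 2 * (Real.log ((N : ℝ) / B.card) + Real.log (16 * K)) + 1 := by gcongr
        _ ≤ 512 * C ^ 2 * (C * L + 2 * Real.log (16 * (C + 1)) * L) + 2 * L := by
            have : Real.log ((N : ℝ) / B.card) + Real.log (16 * K) ≤ C * L + 2 * Real.log (16 * (C + 1)) * L := by
              linarith
            have h8 : 1 ≤ 2 * L := by linarith
            gcongr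
        _ = (512 * C ^ 2 * (C + 2 * Real.log (16 * (C + 1))) + 2) * L := by ring
        _ ≤ _ := by
            have h9 : 0 ≤ (C₁ + 16 * C) * L := by positivity
            linarith
    · rw [← hLd]
      calc min c₁ (min (1 / (40 * (C + 1))) (1 / (13 * (8 * C + 2)))) / L ≤ (1 / (40 * (C + 1))) / L := by
            gcongr
            exact (min_le_right _ _).trans (min_le_left _ _)
        _ ≤ 1 / (26 * K) := by
            rw [div_div]
            apply one_div_le_one_div_of_le (by positivity)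
            nlinarith
  · -- logarithmically many copies
    obtain ⟨Γ, hΓ, hb⟩ := part2 N hN A' B hA' hB m K hK hmK hAB
    have hlB : 0 ≤ Real.log ((N : ℝ) / B.card) := by
      apply Real.log_nonneg
      rw [le_div_iff₀ hBpos, one_mul]
      have := Finset.card_le_univ B
      rw [ZMod.card] at this
      exact_mod_cast this
    refine ⟨Γ, 1 / (13 * (8 * Real.log ((N : ℝ) / B.card) + 1)), by positivity, ?_, ?_, hb.trans hsub⟩
    · rw [← hLd]
      have h9 : 0 ≤ (C₁ + (512 * C ^ 2 * (C + 2 * Real.log (16 * (C + 1))) + 2)) * L := by positivity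
      linarith
    · rw [← hLd]
      calc min c₁ (min (1 / (40 * (C + 1))) (1 / (13 * (8 * C + 2)))) / L ≤ (1 / (13 * (8 * C + 2))) / L := by
            gcongr
            exact (min_le_right _ _).trans (min_le_right _ _)
        _ ≤ _ := by
            rw [div_div]
            apply one_div_le_one_div_of_le (by positivity)
            nlinarith
  · -- polynomially many copies
    have hAB' := hAB
    rw [addMany_eq, Set.ncard_coe_finset] at hAB'
    have hm9 : C₁ * (2 + L) ^ 9 ≤ m := by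
      refine le_trans ?_ hmK
      have : 0 ≤ ((512 * C ^ 2 * (C + 2 * Real.log (16 * (C + 1))) + 2) + 16 * C) * (2 + L) ^ 9 := by positivity
      linarith
    obtain ⟨Γ, hΓ, hb⟩ := h3 N A' B hA' hB m K L hL hK hAB' hKC hm9 hBL
    refine ⟨Γ, c₁ / L, by positivity, ?_, ?_, ?_⟩
    · rw [← hLd]
      have h9 : 0 ≤ ((512 * C ^ 2 * (C + 2 * Real.log (16 * (C + 1))) + 2) + 16 * C) * L := by positivity
      linarith
    · rw [← hLd]
      gcongr
      exact min_le_left _ _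
    · intro x hx
      exact hsub (hb x hx)

end Pool.Agent.Results.MP_169871_nt.SlowGrowth
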