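import Pool.Agent.H89.EN.Fin
import Pool.Agent.H89.LV.Three

/-!
# Bohr sets of dimension `ℓ² (log ℓ)^O(1)` in `2A - 2A`, and of dimension `(1 + ℓ/k) ℓ (log ℓ)^O(1)` in `kA - kA`

Let `A ⊆ ℤ/N` have density `α ≤ 1/2` and let `ℓ = log (1/α)`.

(1) For every `η > 0` there is a Bohr set `B` with at most `C ℓ² (log (2 + ℓ))⁴` frequencies and radius at least `c/ℓ` such
that `B ⊆ 2A - 2A` and `A + A` contains a translate of `B` up to a proportion `η`; here `C, c > 0` depend on `η` only.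

(2) For every `k ≥ 2`, `kA - kA` contains a Bohr set with radius at least `c/ℓ` and with at most
`C (1 + ℓ/k) ℓ m` frequencies, where `m` is the smaller one of `1 + ℓ/k` and `(log (2 + ℓ/k))³ log (2 + ℓ)`.

(3) For every `η > 0` and `k ≥ 2`, `kA` contains up to a proportion `η` a translate of a Bohr set with radius at least
`c/ℓ` and at most `C (1 + ℓ/k) ℓ (log (2 + ℓ/k))³ log (2 + ℓ)` frequencies; `C, c > 0` depend on `η` only.

For `2A - 2A` (and for `A + A` in this sense) the bound of Sanders is `C ℓ⁴`; an argument of Konyagin,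
described by Sanders, replaces the exponent `4` in such results by `3 + o(1)`. For `kA - kA` Chang's theorem gives
`C e^(ℓ/k) ℓ`, which is `O(ℓ)` for `k ≥ ℓ` only.

Proof. The sampling argument of Croot and Sisask is run for the uniform measure of a set `P` and a set `S` of
translations, with the growth of the Shannon entropy of `u_P * u_S` in place of the growth of sets: by Gibbs' inequality
and Jensen's inequality there is a sample of `n` points of `P` which is good for `exp (-2 n H) / 4` of the translates by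
elements of `S`, if `H` is the growth of the entropy. The sample is used to control a level set
`P' = {z : P_(y ∈ P) (y + z ∈ W) ≥ θ}`, `W = X + Y`: the level `θ` is chosen such that the level sets grow by a factor
`e^(O(b/K))` only in an interval of length `1/K` around `θ`, `b = log (4 |W| / |P'|)`; then for `n ≥ C K² (b/K + log b)`
a set `T ⊆ S` of density `exp (-2 n H) / 4` moves all but a small proportion of `P'` into a set of size
`e^(O(b/K)) |P'|`, so the growth of the entropy of `u_(P')` under `T` is at most `1 + O(b/K)`. The points of `P'` have the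
property of the next step, with the roles of `X` and `Y` interchanged, and with a level smaller by `O(1/log b)`. In the
`j`-th double step `K = 2^j`, and the product `n H` is at most `C b_X b_Y log b` in all steps: the entropies decrease as
the numbers of the samples increase. After `O(log b)` steps a set `T` of density `exp (- b_X b_Y (log b)^O(1))` moves at
most the proportion `η` of a level set `P'` of level `θ ≥ 1 - η` out of `P'`. Chang's theorem for `T` and the positivity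
of the Fourier transform of `1_(P') * 1_(-P')` give a Bohr set `B` with `|P' ∩ (P' - x)| ≥ (1 - 4 η) |P'|` for all
`x ∈ B`. The minimum in (2) is obtained with a second argument, by moments (`Pool.Agent.H89.EN`). For `kA` one takes
`X = A` and `Y = jA` with `|(j + 1) A| ≤ e^(ℓ/(k-1)) |jA|`, `1 ≤ j ≤ k - 1`.
-/

set_option autoImplicit false

namespace Pool.Agent.Results.MP_169871_nt.SquareOfTheLogarithm

/-- The Bohr set `B(Γ, ε) = {x ∈ ℤ/N : ‖γ x / N‖ ≤ ε for all γ ∈ Γ}`; the norm is the distance to the nearest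
integer. -/
def bohr {N : ℕ} (Γ : Finset (ZMod N)) (ε : ℝ) : Set (ZMod N) :=
  {x | ∀ γ ∈ Γ, |((γ * x).val : ℝ) / (N : ℝ) - ((round (((γ * x).val : ℝ) / (N : ℝ)) : ℤ) : ℝ)| ≤ ε}

/-- The set `2A - 2A`. -/
def twoAMinusTwoA {N : ℕ} (A : Finset (ZMod N)) : Set (ZMod N) :=
  {x | ∃ a₁ ∈ A, ∃ a₂ ∈ A, ∃ a₃ ∈ A, ∃ a₄ ∈ A, x = a₁ + a₂ - a₃ - a₄}

/-- The set `kA - kA` of the differences of sums of `k` elements of `A`. -/
def kAMinusKA {N : ℕ} (A : Finset (ZMod N)) (k : ℕ) : Set (ZMod N) :=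
  {x | ∃ a b : Fin k → ZMod N, (∀ i, a i ∈ A) ∧ (∀ i, b i ∈ A) ∧ x = ∑ i, a i - ∑ i, b i}

/-- The set `X + Y`. -/
def sumset {N : ℕ} (X Y : Finset (ZMod N)) : Set (ZMod N) := {z | ∃ x ∈ X, ∃ y ∈ Y, z = x + y}

/-- The set `kA` of the sums of `k` elements of `A`. -/
def kSums {N : ℕ} (A : Finset (ZMod N)) (k : ℕ) : Set (ZMod N) :=
  {x | ∃ a : Fin k → ZMod N, (∀ i, a i ∈ A) ∧ x = ∑ i, a i}

/-- A translate `t + x`, `x ∈ B`, of `B` is in `W` up to a proportion `η`. -/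
def AlmostContains {N : ℕ} (η : ℝ) (W B : Set (ZMod N)) : Prop :=
  ∃ t : ZMod N, (1 - η) * (B.ncard : ℝ) ≤ ({x ∈ B | t + x ∈ W}.ncard : ℝ)

open scoped Pointwise in
theorem mem_nsmul' {N : ℕ} (B : Finset (ZMod N)) (m : ℕ) (x : ZMod N) (hx : x ∈ m • B) :
    ∃ b : Fin m → ZMod N, (∀ i, b i ∈ B) ∧ x = ∑ i, b i := by
  induction m generalizing x with
  | zero =>
    rw [zero_nsmul, Finset.mem_zero] at hx
    exact ⟨fun i => i.elim0, fun i => i.elim0, by rw [hx]; simp⟩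
  | succ m ih =>
    rw [succ_nsmul, Finset.mem_add] at hx
    obtain ⟨y, hy, z, hz, rfl⟩ := hx
    obtain ⟨b, hb, rfl⟩ := ih y hy
    refine ⟨Fin.snoc b z, ?_, ?_⟩
    · intro i
      refine Fin.lastCases ?_ (fun i => ?_) i
      · rw [Fin.snoc_last]; exact hz
      · rw [Fin.snoc_castSucc]; exact hb i
    · rw [Fin.sum_univ_castSucc, Fin.snoc_last]
      simp only [Fin.snoc_castSucc]

open scoped Pointwise in
theorem pair {N : ℕ} (hN : 0 < N) (X Y : Finset (ZMod N)) (hX : X.Nonempty) (hY : Y.Nonempty) (p : ℝ) (hp : 0 ≤ p)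
    (h : ((X + Y).card : ℝ) ≤ Real.exp p * Y.card) :
    ∃ Γ : Finset (ZMod N),
      (Γ.card : ℝ) ≤ 2 * 10 ^ 9 * ((1 + p) ^ 2 * (1 + Real.log ((N : ℝ) / X.card))) ∧
      ∀ x ∈ bohr Γ (1 / (10 ^ 4 * (1 + p + Real.log ((N : ℝ) / X.card)))), ∃ w₁ ∈ X + Y, ∃ w₂ ∈ X + Y, x = w₁ - w₂ := by
  classical
  have : NeZero N := ⟨hN.ne'⟩
  have hNpos : (0 : ℝ) < N := by exact_mod_cast hN
  have hXpos : (0 : ℝ) < X.card := by exact_mod_cast hX.card_pos
  have hb : 0 ≤ Real.log ((N : ℝ) / X.card) := by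
    apply Real.log_nonneg
    rw [le_div_iff₀ hXpos, one_mul]
    have := Finset.card_le_univ X
    rw [ZMod.card] at this
    exact_mod_cast this
  have hall : ∀ Z : Finset (ZMod N), Z.Nonempty → Real.log Z.card ≤ Real.log X.card + Real.log ((N : ℝ) / X.card) := by
    intro Z hZ
    rw [← Real.log_mul hXpos.ne' (by positivity), mul_div_cancel₀ _ hXpos.ne']
    apply Real.log_le_log (by exact_mod_cast hZ.card_pos)
    have := Finset.card_le_univ Z
    rw [ZMod.card] at this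
    exact_mod_cast this
  have e0 : X - (-Y) = X + Y := by rw [sub_neg_eq_add]
  have hXY : (X - (-Y)).Nonempty := by rw [e0]; exact hX.add hY
  obtain ⟨Γ, h1, h2⟩ := Pool.Agent.H89.EN.main_ZN X (-Y) Finset.univ hX hY.neg Finset.univ_nonempty p
    (Real.log ((N : ℝ) / X.card)) hp hb (by rw [e0, Finset.card_neg]; exact h)
    (hall _ (hX.add Finset.univ_nonempty)) (fun j _ => hall _ (hX.add ((hXY.sub hXY).nsmul)))
  have e1 : Real.log ((N : ℝ) / ((Finset.univ : Finset (ZMod N)).card : ℝ)) = 0 := by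
    rw [Finset.card_univ, ZMod.card, div_self hNpos.ne', Real.log_one]
  rw [e1] at h1 h2
  rw [zero_add] at h1
  rw [add_zero, e0] at h2
  exact ⟨Γ, h1, fun x hx => h2 x hx⟩

theorem zero_mem_bohr {N : ℕ} (Γ : Finset (ZMod N)) (ε : ℝ) (hε : 0 ≤ ε) : (0 : ZMod N) ∈ bohr Γ ε := by
  intro γ _
  rw [mul_zero]
  have : ((0 : ZMod N).val : ℝ) / (N : ℝ) = 0 := by
    rw [ZMod.val_zero, Nat.cast_zero, zero_div]
  rw [this]
  simpa using hε

/-- from finite sets to sets -/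
theorem almost_of {N : ℕ} [NeZero N] (W : Finset (ZMod N)) (W' : Set (ZMod N)) (u : ZMod N)
    (hW : ∀ w ∈ W, w + u ∈ W') (Γ : Finset (ZMod N)) (ε η η' : ℝ) (hε : 0 ≤ ε) (hη : η' ≤ η)
    (h : ∀ D : Finset (ZMod N), D.Nonempty → (∀ x ∈ D, x ∈ bohr Γ ε) →
      ∃ t : ZMod N, (1 - η') * (D.card : ℝ) ≤ ((D.filter fun x => t + x ∈ W).card : ℝ)) :
    AlmostContains η W' (bohr Γ ε) := by
  classical
  have hmem : ∀ x, x ∈ (Finset.univ.filter fun x => x ∈ bohr Γ ε) ↔ x ∈ bohr Γ ε := by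
    intro x
    simp
  have hD : ((Finset.univ.filter fun x => x ∈ bohr Γ ε : Finset (ZMod N)) : Set (ZMod N)) = bohr Γ ε := by
    ext x
    rw [Finset.mem_coe, hmem]
  obtain ⟨t, ht⟩ := h (Finset.univ.filter fun x => x ∈ bohr Γ ε) ⟨0, (hmem 0).2 (zero_mem_bohr Γ ε hε)⟩
    fun x hx => (hmem x).1 hx
  refine ⟨t + u, ?_⟩
  have e1 : ((bohr Γ ε).ncard : ℝ) = ((Finset.univ.filter fun x => x ∈ bohr Γ ε : Finset (ZMod N)).card : ℝ) := by
    rw [← Set.ncard_coe_finset, hD]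
  have e2 : (((Finset.univ.filter fun x => x ∈ bohr Γ ε : Finset (ZMod N)).filter fun x => t + x ∈ W).card : ℝ) ≤
      (({x ∈ bohr Γ ε | t + u + x ∈ W'} : Set (ZMod N)).ncard : ℝ) := by
    rw [← Set.ncard_coe_finset]
    have : (((Finset.univ.filter fun x => x ∈ bohr Γ ε : Finset (ZMod N)).filter fun x => t + x ∈ W : Finset (ZMod N)) :
        Set (ZMod N)).ncard ≤ ({x ∈ bohr Γ ε | t + u + x ∈ W'} : Set (ZMod N)).ncard := by
      apply Set.ncard_le_ncard _ (Set.toFinite _)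
      intro x hx
      rw [Finset.mem_coe, Finset.mem_filter, hmem] at hx
      refine ⟨hx.1, ?_⟩
      have := hW _ hx.2
      have e : t + u + x = t + x + u := by ring
      rw [e]
      exact this
    exact_mod_cast this
  rw [e1]
  refine le_trans ?_ (ht.trans e2)
  apply mul_le_mul_of_nonneg_right _ (Nat.cast_nonneg _)
  linarith

/-- a small number -/
theorem small_eta (η : ℝ) (hη : 0 < η) : ∃ η' : ℝ, 0 < η' ∧ η' < 1 / 4 ∧ 5 * η' ≤ η := by
  refine ⟨min η 1 / 5, by positivity, ?_, ?_⟩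
  · have := min_le_right η 1
    linarith
  · have := min_le_left η 1
    linarith

theorem log_ge {N : ℕ} (hN : 0 < N) (A : Finset (ZMod N)) (hA : A.Nonempty) (hα : (A.card : ℝ) / (N : ℝ) ≤ 1 / 2) :
    0.69 ≤ Real.log ((N : ℝ) / (A.card : ℝ)) := by
  have hNpos : (0 : ℝ) < N := by exact_mod_cast hN
  have hApos : (0 : ℝ) < A.card := by exact_mod_cast hA.card_pos
  have h1 : (2 : ℝ) ≤ (N : ℝ) / A.card := by
    rw [div_le_iff₀ hNpos] at hα
    rw [le_div_iff₀ hApos]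
    linarith
  have h2 := Real.log_le_log (by norm_num) h1
  linarith [Real.log_two_gt_d9]

open scoped Pointwise in
/-- a multiple of `A` which grows slowly -/
theorem exists_mult {N : ℕ} (hN : 0 < N) (A : Finset (ZMod N)) (hA : A.Nonempty) (l : ℝ)
    (hl : l = Real.log ((N : ℝ) / (A.card : ℝ))) (hl0 : 0 ≤ l) (k : ℕ) (hk : 2 ≤ k) :
    ∃ j : ℕ, 1 ≤ j ∧ j + 1 ≤ k ∧ ((A + j • A).card : ℝ) ≤ Real.exp (l / (k - 1)) * (j • A).card := by
  have : NeZero N := ⟨hN.ne'⟩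
  have hNpos : (0 : ℝ) < N := by exact_mod_cast hN
  have hApos : (0 : ℝ) < A.card := by exact_mod_cast hA.card_pos
  obtain ⟨j, hj1, hjk, hj⟩ : ∃ j : ℕ, 1 ≤ j ∧ j + 1 ≤ k ∧
      Real.log ((j + 1) • A).card - Real.log (j • A).card ≤ l / (k - 1) := by
    by_contra hcon
    push Not at hcon
    have h1 : ∀ i : ℕ, i + 1 ≤ k → i * (l / (k - 1)) ≤ Real.log ((i + 1) • A).card - Real.log A.card := by
      intro i
      induction i with
      | zero =>
        intro _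
        simp
      | succ i ih =>
        intro hi
        have h2 := ih (by omega)
        have h3 := hcon (i + 1) (by omega) hi
        push_cast
        linarith
    obtain ⟨m, rfl⟩ : ∃ m, k = m + 2 := ⟨k - 2, by omega⟩
    have h2 := h1 m (by omega)
    have h3 := hcon (m + 1) (by omega) (by omega)
    have h4 : Real.log ((m + 1 + 1) • A).card ≤ Real.log N := by
      apply Real.log_le_log (by exact_mod_cast (hA.nsmul).card_pos)
      have := Finset.card_le_univ ((m + 1 + 1) • A)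
      rw [ZMod.card] at this
      exact_mod_cast this
    rw [Real.log_div hNpos.ne' hApos.ne'] at hl
    have h5 : (m : ℝ) * (l / (((m + 2 : ℕ) : ℝ) - 1)) + l / (((m + 2 : ℕ) : ℝ) - 1) = l := by
      push_cast
      have : (m : ℝ) + 2 - 1 ≠ 0 := by
        have : (0 : ℝ) ≤ m := Nat.cast_nonneg m
        linarith
      field_simp
      ring
    linarith
  refine ⟨j, hj1, hjk, ?_⟩
  have hjApos : (0 : ℝ) < (j • A).card := by exact_mod_cast (hA.nsmul).card_pos
  have hjApos' : (0 : ℝ) < ((j + 1) • A).card := by exact_mod_cast (hA.nsmul).card_pos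
  have e : A + j • A = (j + 1) • A := by rw [succ_nsmul, add_comm]
  rw [e, ← Real.log_le_log_iff hjApos' (by positivity), Real.log_mul (Real.exp_pos _).ne' hjApos.ne', Real.log_exp]
  linarith

open scoped Pointwise in
/-- from `(j + 1) A` to `kA` -/
theorem lift_mult {N : ℕ} (A : Finset (ZMod N)) (a₀ : ZMod N) (ha₀ : a₀ ∈ A) (j k : ℕ) (hjk : j + 1 ≤ k) (w : ZMod N)
    (hw : w ∈ A + j • A) : w + (k - (j + 1)) • a₀ ∈ kSums A k := by
  have e : A + j • A = (j + 1) • A := by rw [succ_nsmul, add_comm]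
  rw [e] at hw
  obtain ⟨i, hi⟩ : ∃ i, k = (j + 1) + i := ⟨k - (j + 1), by omega⟩
  have hi₀ : i • a₀ ∈ i • A := Finset.nsmul_mem_nsmul ha₀
  have hki : k - (j + 1) = i := by omega
  rw [hki]
  obtain ⟨u, hu, hu'⟩ := mem_nsmul' A k (w + i • a₀) (by rw [hi, add_nsmul]; exact Finset.add_mem_add hw hi₀)
  exact ⟨u, hu, hu'⟩

/-- the numbers for `kA` -/
theorem numbers (l y p : ℝ) (hl1 : 0.69 ≤ l) (hy0 : 0 ≤ y) (hp0 : 0 ≤ p) (h3 : p ≤ 2 * y) (hpl : p ≤ l) :
    (1 + p) * (1 + p + l) * (Real.log (2 + p) ^ 3 * Real.log (2 + p + l + 0)) ≤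
      112 * ((1 + y) * l * (Real.log (2 + y) ^ 3 * Real.log (2 + l))) ∧
    (1 + p) ^ 2 * (1 + l) ≤ 10 * ((1 + y) * l * (1 + y)) ∧ 1 + p + l ≤ 4 * l := by
  have h5 : 1 + p ≤ 2 * (1 + y) := by linarith
  have h6 : 1 + l ≤ 2.5 * l := by linarith
  have h7 : 1 + p + l ≤ 3.5 * l := by linarith
  have g1 : 0 ≤ Real.log (2 + p) := Real.log_nonneg (by linarith)
  have g2 : 0 ≤ Real.log (2 + y) := Real.log_nonneg (by linarith)
  have g3 : 0 ≤ Real.log (2 + l) := Real.log_nonneg (by linarith)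
  have g4 : 0 ≤ Real.log (2 + p + l) := Real.log_nonneg (by linarith)
  have h8 : Real.log (2 + p) ≤ 2 * Real.log (2 + y) := by
    have k1 : 2 + p ≤ (2 + y) ^ 2 := by nlinarith
    have k2 := Real.log_le_log (by linarith) k1
    rw [Real.log_pow] at k2
    exact_mod_cast k2
  have h9 : Real.log (2 + p + l) ≤ 2 * Real.log (2 + l) := by
    have k1 : 2 + p + l ≤ (2 + l) ^ 2 := by nlinarith
    have k2 := Real.log_le_log (by linarith) k1
    rw [Real.log_pow] at k2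
    exact_mod_cast k2
  refine ⟨?_, ?_, by linarith⟩
  · rw [add_zero]
    have k1 : 0 ≤ 1 + p + l := by linarith
    calc (1 + p) * (1 + p + l) * (Real.log (2 + p) ^ 3 * Real.log (2 + p + l)) ≤
        (2 * (1 + y)) * (3.5 * l) * ((2 * Real.log (2 + y)) ^ 3 * (2 * Real.log (2 + l))) := by gcongr
      _ = 112 * ((1 + y) * l * (Real.log (2 + y) ^ 3 * Real.log (2 + l))) := by ring
  · calc (1 + p) ^ 2 * (1 + l) ≤ (2 * (1 + y)) ^ 2 * (2.5 * l) := by gcongr
      _ = _ := by ring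

open scoped Pointwise in
/-- almost all of a translate, for `kA` -/
theorem part_three (η : ℝ) (hη : 0 < η) : ∃ C c : ℝ, 0 < C ∧ 0 < c ∧
    ∀ N : ℕ, 0 < N → ∀ A : Finset (ZMod N), A.Nonempty → (A.card : ℝ) / (N : ℝ) ≤ 1 / 2 → ∀ l : ℝ,
      l = Real.log ((N : ℝ) / (A.card : ℝ)) → ∀ k : ℕ, 2 ≤ k →
      ∃ (Γ : Finset (ZMod N)) (ε : ℝ), 0 < ε ∧
        (Γ.card : ℝ) ≤ C * ((1 + l / k) * l * (Real.log (2 + l / k) ^ 3 * Real.log (2 + l))) ∧
        c / l ≤ ε ∧ bohr Γ ε ⊆ kAMinusKA A k ∧ AlmostContains η (kSums A k) (bohr Γ ε) := by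
  classical
  obtain ⟨η', e1, e2, e3⟩ := small_eta η hη
  refine ⟨112 * (10 ^ 18 / η' ^ 8), η' / (4 * 10 ^ 5), by positivity, by positivity, ?_⟩
  intro N hN A hA hα l hl k hk
  have : NeZero N := ⟨hN.ne'⟩
  have hNpos : (0 : ℝ) < N := by exact_mod_cast hN
  have hApos : (0 : ℝ) < A.card := by exact_mod_cast hA.card_pos
  have hl1 : 0.69 ≤ l := by rw [hl]; exact log_ge hN A hA hα
  have hk2 : (2 : ℝ) ≤ k := by exact_mod_cast hk
  obtain ⟨j, hj1, hjk, hj⟩ := exists_mult hN A hA l hl (by linarith) k hk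
  obtain ⟨p, hp⟩ : ∃ p : ℝ, p = l / (k - 1) := ⟨_, rfl⟩
  rw [← hp] at hj
  have hp0 : 0 ≤ p := by
    rw [hp]
    apply div_nonneg <;> linarith
  have hpl : p ≤ l := by
    rw [hp]
    apply div_le_self (by linarith)
    linarith
  obtain ⟨y, hy⟩ : ∃ y : ℝ, y = l / k := ⟨_, rfl⟩
  rw [← hy]
  have hy0 : 0 ≤ y := by rw [hy]; positivity
  have h3 : p ≤ 2 * y := by
    rw [hp, hy, mul_div_assoc', div_le_div_iff₀ (by linarith) (by linarith)]
    nlinarith
  obtain ⟨n1, -, n3⟩ := numbers l y p hl1 hy0 hp0 h3 hpl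
  have hNA : (N : ℝ) = Real.exp l * A.card := by
    rw [hl, Real.exp_log (by positivity), div_mul_cancel₀ _ hApos.ne']
  have huniv : ∀ Z : Finset (ZMod N), (Z.card : ℝ) ≤ Real.exp l * A.card := by
    intro Z
    rw [← hNA]
    have := Finset.card_le_univ Z
    rw [ZMod.card] at this
    exact_mod_cast this
  have es : (0 : ℝ) = Real.log ((N : ℝ) / ((Finset.univ : Finset (ZMod N)).card : ℝ)) := by
    rw [Finset.card_univ, ZMod.card, div_self hNpos.ne', Real.log_one]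
  obtain ⟨Γ, g1, g2, g3⟩ := Pool.Agent.H89.LV.three A (j • A) Finset.univ hA hA.nsmul Finset.univ_nonempty η' e1 e2
    p l 0 hp0 (by linarith) es hj (huniv _) (huniv _)
  have hε : 0 < η' / (10 ^ 5 * (1 + 0 + p + l)) := by
    have : 0 < 1 + 0 + p + l := by linarith
    positivity
  have hlpos : 0 < l := by linarith
  obtain ⟨a₀, ha₀⟩ := hA
  refine ⟨Γ, η' / (10 ^ 5 * (1 + 0 + p + l)), hε, ?_, ?_, ?_, ?_⟩
  · refine g1.trans ?_
    rw [zero_add, mul_comm (112 : ℝ), mul_assoc (10 ^ 18 / η' ^ 8)]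
    exact mul_le_mul_of_nonneg_left n1 (by positivity)
  · rw [div_div]
    apply div_le_div_of_nonneg_left e1.le (by linarith)
    linarith
  · intro x hx
    obtain ⟨w₁, hw₁, w₂, hw₂, rfl⟩ := g2 x hx
    obtain ⟨u, hu, hu'⟩ := lift_mult A a₀ ha₀ j k hjk w₁ hw₁
    obtain ⟨v, hv, hv'⟩ := lift_mult A a₀ ha₀ j k hjk w₂ hw₂
    refine ⟨u, v, hu, hv, ?_⟩
    rw [← hu', ← hv']
    abel
  · exact almost_of (A + j • A) (kSums A k) ((k - (j + 1)) • a₀) (fun w hw => lift_mult A a₀ ha₀ j k hjk w hw) Γ _ η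
      (5 * η') hε.le e3 fun D hD hDx => g3 D hD fun x hx γ hγ => hDx x hx γ hγ

open scoped Pointwise in
/-- the first bound for `kA - kA` -/
theorem part_moments : ∀ N : ℕ, 0 < N → ∀ A : Finset (ZMod N), A.Nonempty → (A.card : ℝ) / (N : ℝ) ≤ 1 / 2 → ∀ l : ℝ,
      l = Real.log ((N : ℝ) / (A.card : ℝ)) → ∀ k : ℕ, 2 ≤ k →
      ∃ (Γ : Finset (ZMod N)) (ε : ℝ), 0 < ε ∧
        (Γ.card : ℝ) ≤ 2 * 10 ^ 10 * ((1 + l / k) * l * (1 + l / k)) ∧
        (1 / (4 * 10 ^ 4)) / l ≤ ε ∧ bohr Γ ε ⊆ kAMinusKA A k := by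
  classical
  intro N hN A hA hα l hl k hk
  have : NeZero N := ⟨hN.ne'⟩
  have hl1 : 0.69 ≤ l := by rw [hl]; exact log_ge hN A hA hα
  have hk2 : (2 : ℝ) ≤ k := by exact_mod_cast hk
  obtain ⟨j, hj1, hjk, hj⟩ := exists_mult hN A hA l hl (by linarith) k hk
  obtain ⟨p, hp⟩ : ∃ p : ℝ, p = l / (k - 1) := ⟨_, rfl⟩
  rw [← hp] at hj
  have hp0 : 0 ≤ p := by
    rw [hp]
    apply div_nonneg <;> linarith
  have hpl : p ≤ l := by
    rw [hp]
    apply div_le_self (by linarith)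
    linarith
  obtain ⟨y, hy⟩ : ∃ y : ℝ, y = l / k := ⟨_, rfl⟩
  rw [← hy]
  have hy0 : 0 ≤ y := by rw [hy]; positivity
  have h3 : p ≤ 2 * y := by
    rw [hp, hy, mul_div_assoc', div_le_div_iff₀ (by linarith) (by linarith)]
    nlinarith
  obtain ⟨-, n2, n3⟩ := numbers l y p hl1 hy0 hp0 h3 hpl
  obtain ⟨Γ, h1, h2⟩ := pair hN A (j • A) hA hA.nsmul p hp0 hj
  rw [← hl] at h1 h2
  have hlpos : 0 < l := by linarith
  obtain ⟨a₀, ha₀⟩ := hA
  refine ⟨Γ, 1 / (10 ^ 4 * (1 + p + l)), by positivity, by linarith, ?_, fun x hx => ?_⟩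
  · rw [div_div]
    apply one_div_le_one_div_of_le (by positivity)
    linarith
  · obtain ⟨w₁, hw₁, w₂, hw₂, rfl⟩ := h2 x hx
    obtain ⟨u, hu, hu'⟩ := lift_mult A a₀ ha₀ j k hjk w₁ hw₁
    obtain ⟨v, hv, hv'⟩ := lift_mult A a₀ ha₀ j k hjk w₂ hw₂
    refine ⟨u, v, hu, hv, ?_⟩
    rw [← hu', ← hv']
    abel

theorem mono_rad {N : ℕ} (Γ : Finset (ZMod N)) (ε ε' : ℝ) (h : ε' ≤ ε) : bohr Γ ε' ⊆ bohr Γ ε :=
  fun _ hx γ hγ => (hx γ hγ).trans h

/-- **Bohr sets in `2A - 2A` and `kA - kA`, and almost all of a Bohr set in a translate of `A + A` and `kA`.** -/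
theorem result :
    -- (1) `2A - 2A` and `A + A`
    (∀ η : ℝ, 0 < η → ∃ C c : ℝ, 0 < C ∧ 0 < c ∧
      ∀ N : ℕ, 0 < N → ∀ A : Finset (ZMod N), A.Nonempty → (A.card : ℝ) / (N : ℝ) ≤ 1 / 2 → ∀ l : ℝ,
        l = Real.log ((N : ℝ) / (A.card : ℝ)) →
        ∃ (Γ : Finset (ZMod N)) (ε : ℝ), 0 < ε ∧ (Γ.card : ℝ) ≤ C * (l ^ 2 * Real.log (2 + l) ^ 4) ∧ c / l ≤ ε ∧
          bohr Γ ε ⊆ twoAMinusTwoA A ∧ AlmostContains η (sumset A A) (bohr Γ ε)) ∧
    -- (2) `kA - kA`
    (∃ C c : ℝ, 0 < C ∧ 0 < c ∧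
      ∀ N : ℕ, 0 < N → ∀ A : Finset (ZMod N), A.Nonempty → (A.card : ℝ) / (N : ℝ) ≤ 1 / 2 → ∀ l : ℝ,
        l = Real.log ((N : ℝ) / (A.card : ℝ)) → ∀ k : ℕ, 2 ≤ k →
        ∃ (Γ : Finset (ZMod N)) (ε : ℝ), 0 < ε ∧
          (Γ.card : ℝ) ≤ C * ((1 + l / k) * l * min (1 + l / k) (Real.log (2 + l / k) ^ 3 * Real.log (2 + l))) ∧
          c / l ≤ ε ∧ bohr Γ ε ⊆ kAMinusKA A k) ∧
    -- (3) `kA`
    (∀ η : ℝ, 0 < η → ∃ C c : ℝ, 0 < C ∧ 0 < c ∧
      ∀ N : ℕ, 0 < N → ∀ A : Finset (ZMod N), A.Nonempty → (A.card : ℝ) / (N : ℝ) ≤ 1 / 2 → ∀ l : ℝ,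
        l = Real.log ((N : ℝ) / (A.card : ℝ)) → ∀ k : ℕ, 2 ≤ k →
        ∃ (Γ : Finset (ZMod N)) (ε : ℝ), 0 < ε ∧
          (Γ.card : ℝ) ≤ C * ((1 + l / k) * l * (Real.log (2 + l / k) ^ 3 * Real.log (2 + l))) ∧
          c / l ≤ ε ∧ bohr Γ ε ⊆ kAMinusKA A k ∧ AlmostContains η (kSums A k) (bohr Γ ε)) := by
  classical
  refine ⟨?_, ?_, part_three⟩
  · intro η hη
    obtain ⟨C, c, hC, hc, h⟩ := part_three η hη
    refine ⟨2 * C, c, by positivity, hc, ?_⟩
    intro N hN A hA hα l hl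
    obtain ⟨Γ, ε, h1, h2, h3, h4, h5⟩ := h N hN A hA hα l hl 2 le_rfl
    have hl1 : 0.69 ≤ l := by rw [hl]; exact log_ge hN A hA hα
    refine ⟨Γ, ε, h1, ?_, h3, ?_, ?_⟩
    · refine h2.trans ?_
      push_cast
      have k5 : 1 + l / 2 ≤ 2 * l := by linarith
      have g1 : 0 ≤ Real.log (2 + l / 2) := Real.log_nonneg (by linarith)
      have g3 : 0 ≤ Real.log (2 + l) := Real.log_nonneg (by linarith)
      have h6 : Real.log (2 + l / 2) ≤ Real.log (2 + l) := Real.log_le_log (by linarith) (by linarith)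
      calc C * ((1 + l / 2) * l * (Real.log (2 + l / 2) ^ 3 * Real.log (2 + l))) ≤
          C * ((2 * l) * l * (Real.log (2 + l) ^ 3 * Real.log (2 + l))) := by gcongr
        _ = _ := by ring
    · intro x hx
      obtain ⟨a, b, ha, hb, rfl⟩ := h4 hx
      refine ⟨a 0, ha 0, a 1, ha 1, b 0, hb 0, b 1, hb 1, ?_⟩
      rw [Fin.sum_univ_two, Fin.sum_univ_two]
      abel
    · obtain ⟨t, ht⟩ := h5
      refine ⟨t, ht.trans (le_of_eq ?_)⟩
      congr 2
      ext x
      constructor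
      · rintro ⟨k1, a, ha, hx⟩
        refine ⟨k1, a 0, ha 0, a 1, ha 1, ?_⟩
        rw [hx, Fin.sum_univ_two]
      · rintro ⟨k1, a, ha, b, hb, hx⟩
        refine ⟨k1, ![a, b], ?_, ?_⟩
        · intro i
          fin_cases i
          · exact ha
          · exact hb
        · rw [hx, Fin.sum_univ_two]
          rfl
  · obtain ⟨C, c, hC, hc, h⟩ := part_three 1 one_pos
    refine ⟨C + 2 * 10 ^ 10, min c (1 / (4 * 10 ^ 4)), by positivity, by positivity, ?_⟩
    intro N hN A hA hα l hl k hk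
    have hl1 : 0.69 ≤ l := by rw [hl]; exact log_ge hN A hA hα
    have hy0 : 0 ≤ l / k := by positivity
    have g2 : 0 ≤ Real.log (2 + l / k) := Real.log_nonneg (by linarith)
    have g3 : 0 ≤ Real.log (2 + l) := Real.log_nonneg (by linarith)
    rcases le_total (1 + l / k) (Real.log (2 + l / k) ^ 3 * Real.log (2 + l)) with hc1 | hc1
    · obtain ⟨Γ, ε, h1, h2, h3, h4⟩ := part_moments N hN A hA hα l hl k hk
      refine ⟨Γ, ε, h1, ?_, ?_, h4⟩
      · rw [min_eq_left hc1]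
        refine h2.trans ?_
        apply mul_le_mul_of_nonneg_right (by linarith) (by positivity)
      · refine le_trans ?_ h3
        apply div_le_div_of_nonneg_right (min_le_right _ _) (by linarith)
    · obtain ⟨Γ, ε, h1, h2, h3, h4, -⟩ := h N hN A hA hα l hl k hk
      refine ⟨Γ, ε, h1, ?_, ?_, h4⟩
      · rw [min_eq_right hc1]
        refine h2.trans ?_
        apply mul_le_mul_of_nonneg_right (by linarith) (by positivity)
      · refine le_trans ?_ h3
        apply div_le_div_of_nonneg_right (min_le_left _ _) (by linarith)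

end Pool.Agent.Results.MP_169871_nt.SquareOfTheLogarithm
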